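import Pool.Agent.H45.Lib.S8.H343R2.EH.Defs

/-!
Task E7 (helper467): removing the logarithmic weight.
-/

open Finset

namespace H343E

open Pool.Agent.H410R2 Pool.Agent.H398R2.BV

/-- `psi` restricted to a predicate -/
noncomputable def psiP (P : ℕ → Prop) [DecidablePred P] (x : ℝ) : ℝ :=
  ∑ n ∈ (Icc 1 ⌊x⌋₊).filter P, ArithmeticFunction.vonMangoldt n

/-- log weighted `psi` restricted to a predicate -/
noncomputable def psiLP (P : ℕ → Prop) [DecidablePred P] (x : ℝ) : ℝ :=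
  ∑ n ∈ (Icc 1 ⌊x⌋₊).filter P, ArithmeticFunction.vonMangoldt n * Real.log (x / n)

theorem psiP_mono (P : ℕ → Prop) [DecidablePred P] {x y : ℝ} (h : x ≤ y) :
    psiP P x ≤ psiP P y := by
  unfold psiP
  refine sum_le_sum_of_subset_of_nonneg ?_ (fun _ _ _ => ArithmeticFunction.vonMangoldt_nonneg)
  exact filter_subset_filter _ (Icc_subset_Icc le_rfl (Nat.floor_le_floor h))

/-- the two inequalities between `psi` and the log weighted `psi` -/
theorem psiLP_diff (P : ℕ → Prop) [DecidablePred P] {x η : ℝ} (hx : 0 < x) (hη : 0 < η) :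
    η * psiP P x ≤ psiLP P (x * Real.exp η) - psiLP P x ∧
      psiLP P (x * Real.exp η) - psiLP P x ≤ η * psiP P (x * Real.exp η) := by
  set y := x * Real.exp η with hy
  have hexp : 1 ≤ Real.exp η := Real.one_le_exp hη.le
  have hxy : x ≤ y := by rw [hy]; nlinarith
  have hy0 : 0 < y := by positivity
  have hsub : (Icc 1 ⌊x⌋₊).filter P ⊆ (Icc 1 ⌊y⌋₊).filter P :=
    filter_subset_filter _ (Icc_subset_Icc le_rfl (Nat.floor_le_floor hxy))
  have hlogy : Real.log y = Real.log x + η := by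
    rw [hy, Real.log_mul hx.ne' (Real.exp_pos _).ne', Real.log_exp]
  have hdecL : psiLP P y = ∑ n ∈ (Icc 1 ⌊x⌋₊).filter P,
      ArithmeticFunction.vonMangoldt n * Real.log (y / n) +
      ∑ n ∈ (Icc 1 ⌊y⌋₊).filter P \ (Icc 1 ⌊x⌋₊).filter P,
        ArithmeticFunction.vonMangoldt n * Real.log (y / n) := by
    unfold psiLP
    rw [add_comm, sum_sdiff hsub]
  have hdecP : psiP P y = psiP P x +
      ∑ n ∈ (Icc 1 ⌊y⌋₊).filter P \ (Icc 1 ⌊x⌋₊).filter P, ArithmeticFunction.vonMangoldt n := by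
    unfold psiP
    rw [add_comm, sum_sdiff hsub]
  have hmain : ∑ n ∈ (Icc 1 ⌊x⌋₊).filter P,
      ArithmeticFunction.vonMangoldt n * Real.log (y / n) = psiLP P x + η * psiP P x := by
    unfold psiLP psiP
    rw [mul_sum, ← sum_add_distrib]
    refine sum_congr rfl fun n hn => ?_
    have hn1 : 1 ≤ n := (mem_Icc.1 (mem_filter.1 hn).1).1
    have hn0 : (n : ℝ) ≠ 0 := by positivity
    rw [Real.log_div hy0.ne' hn0, Real.log_div hx.ne' hn0, hlogy]
    ring
  have hrem : ∀ n ∈ (Icc 1 ⌊y⌋₊).filter P \ (Icc 1 ⌊x⌋₊).filter P,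
      0 ≤ Real.log (y / n) ∧ Real.log (y / n) ≤ η := by
    intro n hn
    rw [mem_sdiff, mem_filter, mem_filter, mem_Icc, mem_Icc] at hn
    obtain ⟨⟨⟨h1, h2⟩, h3⟩, h4⟩ := hn
    have hn0 : (0 : ℝ) < n := by exact_mod_cast h1
    have h5 : ⌊x⌋₊ < n := by
      by_contra hcon
      exact h4 ⟨⟨h1, not_lt.1 hcon⟩, h3⟩
    have h6 : x < n := (Nat.floor_lt hx.le).1 h5
    have h7 : (n : ℝ) ≤ y := (Nat.le_floor_iff hy0.le).1 h2
    constructor
    · exact Real.log_nonneg ((one_le_div hn0).2 h7)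
    · rw [Real.log_div hy0.ne' hn0.ne', hlogy]
      have := Real.log_le_log hx h6.le
      linarith
  have hremsum0 : 0 ≤ ∑ n ∈ (Icc 1 ⌊y⌋₊).filter P \ (Icc 1 ⌊x⌋₊).filter P,
        ArithmeticFunction.vonMangoldt n * Real.log (y / n) :=
    sum_nonneg fun n hn => mul_nonneg ArithmeticFunction.vonMangoldt_nonneg (hrem n hn).1
  have hremsum1 : ∑ n ∈ (Icc 1 ⌊y⌋₊).filter P \ (Icc 1 ⌊x⌋₊).filter P,
        ArithmeticFunction.vonMangoldt n * Real.log (y / n) ≤
      η * ∑ n ∈ (Icc 1 ⌊y⌋₊).filter P \ (Icc 1 ⌊x⌋₊).filter P, ArithmeticFunction.vonMangoldt n := by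
    rw [mul_sum]
    refine sum_le_sum fun n hn => ?_
    rw [mul_comm η]
    exact mul_le_mul_of_nonneg_left (hrem n hn).2 ArithmeticFunction.vonMangoldt_nonneg
  rw [hdecL, hmain, hdecP]
  constructor
  · linarith
  · rw [mul_add]
    linarith

theorem psiAP_eq (x : ℝ) (q a : ℕ) : psiAP x q a = psiP (fun n => n ≡ a [MOD q]) x := rfl
theorem psiLogAP_eq (x : ℝ) (q a : ℕ) : psiLogAP x q a = psiLP (fun n => n ≡ a [MOD q]) x := rfl
theorem psi1_eq (x : ℝ) : psi1 x = psiP (fun _ => True) x := by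
  unfold psi1 psiP; simp
theorem psiLog1_eq (x : ℝ) : psiLog1 x = psiLP (fun _ => True) x := by
  unfold psiLog1 psiLP; simp

/-- the pointwise inequality -/
theorem unsmooth_point {x η : ℝ} (hx : 0 < x) (hη : 0 < η) (q a : ℕ) :
    |psiAP x q a - psi1 x / (Nat.totient q : ℝ)| ≤
      (1 / η) * (|psiLogAP (x * Real.exp η) q a - psiLog1 (x * Real.exp η) / (Nat.totient q : ℝ)| +
        |psiLogAP x q a - psiLog1 x / (Nat.totient q : ℝ)| +
        |psiLogAP (x * Real.exp (-η)) q a - psiLog1 (x * Real.exp (-η)) / (Nat.totient q : ℝ)|) +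
      (psi1 (x * Real.exp η) - psi1 (x * Real.exp (-η))) / (Nat.totient q : ℝ) := by
  have hx' : 0 < x * Real.exp (-η) := by positivity
  have hback : x * Real.exp (-η) * Real.exp η = x := by
    rw [mul_assoc, ← Real.exp_add]; simp
  obtain ⟨a1, a2⟩ := psiLP_diff (fun n => n ≡ a [MOD q]) hx hη
  obtain ⟨a3, a4⟩ := psiLP_diff (fun n => n ≡ a [MOD q]) hx' hη
  obtain ⟨b1, b2⟩ := psiLP_diff (fun _ => True) hx hη
  obtain ⟨b3, b4⟩ := psiLP_diff (fun _ => True) hx' hη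
  rw [hback] at a3 a4 b3 b4
  simp only [← psiAP_eq, ← psiLogAP_eq, ← psi1_eq, ← psiLog1_eq] at a1 a2 a3 a4 b1 b2 b3 b4
  set F : ℝ := (Nat.totient q : ℝ) with hF
  have hF0 : 0 ≤ F := Nat.cast_nonneg _
  set Y := x * Real.exp η with hY
  set Z := x * Real.exp (-η) with hZ
  have key : ∀ u v : ℝ, u ≤ v → u / F ≤ v / F := fun u v huv => div_le_div_of_nonneg_right huv hF0
  have c1 := key _ _ b1
  have c2 := key _ _ b2
  have c3 := key _ _ b3
  have c4 := key _ _ b4
  simp only [mul_div_assoc, sub_div] at c1 c2 c3 c4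
  have e1 := abs_le.1 (le_refl |psiLogAP Y q a - psiLog1 Y / F|)
  have e2 := abs_le.1 (le_refl |psiLogAP x q a - psiLog1 x / F|)
  have e3 := abs_le.1 (le_refl |psiLogAP Z q a - psiLog1 Z / F|)
  set E1 := |psiLogAP Y q a - psiLog1 Y / F|
  set E2 := |psiLogAP x q a - psiLog1 x / F|
  set E3 := |psiLogAP Z q a - psiLog1 Z / F|
  have hE1 : 0 ≤ E1 := abs_nonneg _
  have hE3 : 0 ≤ E3 := abs_nonneg _
  have main : |η * (psiAP x q a - psi1 x / F)| ≤ (E1 + E2 + E3) + η * ((psi1 Y - psi1 Z) / F) := by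
    rw [sub_div, abs_le, mul_sub, mul_sub]
    constructor <;> linarith [e1.1, e1.2, e2.1, e2.2, e3.1, e3.2]
  rw [abs_mul, abs_of_pos hη] at main
  have h2 : |psiAP x q a - psi1 x / F| = (1 / η) * (η * |psiAP x q a - psi1 x / F|) := by
    field_simp
  rw [h2]
  calc (1 / η) * (η * |psiAP x q a - psi1 x / F|)
      ≤ (1 / η) * ((E1 + E2 + E3) + η * ((psi1 Y - psi1 Z) / F)) := by
        apply mul_le_mul_of_nonneg_left main (by positivity)
    _ = (1 / η) * (E1 + E2 + E3) + (psi1 Y - psi1 Z) / F := by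
        field_simp

/-- `psi` in a short interval -/
theorem psi1_short {x η : ℝ} (hx : 1 ≤ x) (hη : 0 < η) (hη1 : η ≤ 1) :
    psi1 (x * Real.exp η) - psi1 (x * Real.exp (-η)) ≤ (3 * η * x + 1) * (Real.log x + 1) := by
  set Y := x * Real.exp η with hY
  set Z := x * Real.exp (-η) with hZ
  have hZ0 : 0 < Z := by positivity
  have hZY : Z ≤ Y := by
    rw [hZ, hY]
    have : Real.exp (-η) ≤ Real.exp η := Real.exp_le_exp.2 (by linarith)
    nlinarith
  have hY0 : 0 < Y := by positivity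
  have hfl : ⌊Z⌋₊ ≤ ⌊Y⌋₊ := Nat.floor_le_floor hZY
  have h1 : psi1 Y - psi1 Z = ∑ n ∈ Ioc ⌊Z⌋₊ ⌊Y⌋₊, ArithmeticFunction.vonMangoldt n := by
    unfold psi1
    have e1 : Icc 1 ⌊Y⌋₊ = Ioc 0 ⌊Y⌋₊ := by ext; simp [Nat.succ_le_iff]
    have e2 : Icc 1 ⌊Z⌋₊ = Ioc 0 ⌊Z⌋₊ := by ext; simp [Nat.succ_le_iff]
    rw [e1, e2, ← sum_Ioc_consecutive _ (Nat.zero_le _) hfl]
    ring
  have hlogY : Real.log Y ≤ Real.log x + 1 := by
    rw [hY, Real.log_mul (by positivity) (Real.exp_pos _).ne', Real.log_exp]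
    linarith
  have hlog0 : 0 ≤ Real.log x + 1 := by
    have := Real.log_nonneg hx
    linarith
  have h2 : ∑ n ∈ Ioc ⌊Z⌋₊ ⌊Y⌋₊, ArithmeticFunction.vonMangoldt n ≤
      ∑ n ∈ Ioc ⌊Z⌋₊ ⌊Y⌋₊, (Real.log x + 1) := by
    refine sum_le_sum fun n hn => ?_
    rw [mem_Ioc] at hn
    have hn0 : (0 : ℝ) < n := by
      have : 0 < n := by omega
      exact_mod_cast this
    have hnY : (n : ℝ) ≤ Y := (Nat.le_floor_iff hY0.le).1 hn.2
    calc ArithmeticFunction.vonMangoldt n ≤ Real.log n := ArithmeticFunction.vonMangoldt_le_log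
      _ ≤ Real.log Y := Real.log_le_log hn0 hnY
      _ ≤ _ := hlogY
  rw [sum_const, Nat.card_Ioc, nsmul_eq_mul] at h2
  have h3 : ((⌊Y⌋₊ - ⌊Z⌋₊ : ℕ) : ℝ) ≤ 3 * η * x + 1 := by
    rw [Nat.cast_sub hfl]
    have f1 : (⌊Y⌋₊ : ℝ) ≤ Y := Nat.floor_le hY0.le
    have f2 : Z < ⌊Z⌋₊ + 1 := Nat.lt_floor_add_one Z
    have f3 : Y - Z ≤ 3 * η * x := by
      have g1 : Real.exp η - Real.exp (-η) ≤ 3 * η := by
        -- exp η ≤ 1 + η + η^2 , exp (-η) ≥ 1 - η
        have g2 : |Real.exp η - 1 - η| ≤ η ^ 2 := Real.abs_exp_sub_one_sub_id_le (by rw [abs_of_pos hη]; exact hη1)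
        have g3 := (abs_le.1 g2).2
        have g4 := Real.add_one_le_exp (-η)
        nlinarith
      calc Y - Z = x * (Real.exp η - Real.exp (-η)) := by rw [hY, hZ]; ring
        _ ≤ x * (3 * η) := by
            apply mul_le_mul_of_nonneg_left g1 (by linarith)
        _ = 3 * η * x := by ring
    linarith
  rw [h1]
  refine h2.trans ?_
  exact mul_le_mul_of_nonneg_right h3 hlog0

/-- sums over families -/
theorem fam_sum_totient {A : ℝ} {L : ℕ → Finset ℕ} (hL : Fam A L) (D : ℕ) {c : ℝ} (hc : 0 ≤ c) :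
    ∑ q ∈ Icc 1 D, ∑ _a ∈ L q, c / (Nat.totient q : ℝ) ≤ A * HH D * c := by
  unfold HH
  rw [mul_sum, sum_mul]
  refine sum_le_sum fun q _ => ?_
  rw [sum_const, nsmul_eq_mul]
  calc ((L q).card : ℝ) * (c / (Nat.totient q : ℝ)) ≤ A * (c / (Nat.totient q : ℝ)) := by
        apply mul_le_mul_of_nonneg_right (hL.card q) (by positivity)
    _ = A * (1 / (Nat.totient q : ℝ)) * c := by ring

/-- removing the weight: `smoothed → unsmoothed` -/
theorem unsmoothed_of (hsm : ∀ U : ℕ, ∃ (B : ℕ) (X0 : ℝ), ∀ X : ℝ, X0 ≤ X → ∀ A : ℝ, 1 ≤ A →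
    ∀ D : ℕ, (D : ℝ) ≤ X / Real.log X ^ B → (D : ℝ) ^ 2 ≤ A * X / Real.log X ^ B →
    ∀ L : ℕ → Finset ℕ, Fam A L →
    ∑ q ∈ Icc 1 D, ∑ a ∈ L q, |psiLogAP X q a - psiLog1 X / (Nat.totient q : ℝ)| ≤
      A * X / Real.log X ^ U) (U : ℕ) :
    ∃ (B : ℕ) (X0 : ℝ), ∀ X : ℝ, X0 ≤ X → ∀ A : ℝ, 1 ≤ A → ∀ D : ℕ,
    (D : ℝ) ≤ X / Real.log X ^ B → (D : ℝ) ^ 2 ≤ A * X / Real.log X ^ B →
    ∀ L : ℕ → Finset ℕ, Fam A L →
    ∑ q ∈ Icc 1 D, ∑ a ∈ L q, |psiAP X q a - psi1 X / (Nat.totient q : ℝ)| ≤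
      A * X / Real.log X ^ U := by
  obtain ⟨k, hk⟩ := sum_pow_omega_div_totient 1 le_rfl
  set K := 2 ^ k with hK
  set V := U + K + 2 with hV
  set U' := U + V + 1 with hU'
  obtain ⟨B0, X1, hs⟩ := hsm U'
  have hlarge : ∀ᶠ X : ℝ in Filter.atTop, 1 ≤ X / Real.log X ^ V := by
    have h1 := isLittleO_log_rpow_rpow_atTop (s := 1) (V : ℝ) one_pos
    have h2 := h1.bound (show (0 : ℝ) < 1 by norm_num)
    filter_upwards [h2, Filter.eventually_gt_atTop (3 : ℝ)] with X hX h3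
    have hlog : 1 < Real.log X := by
      rw [Real.lt_log_iff_exp_lt (by linarith)]
      exact lt_trans Real.exp_one_lt_three h3
    rw [Real.rpow_one, Real.norm_of_nonneg (by positivity), Real.norm_of_nonneg (by linarith),
      Real.rpow_natCast, one_mul] at hX
    rwa [one_le_div (by positivity)]
  obtain ⟨X2, hX2⟩ := Filter.eventually_atTop.1 hlarge
  set Cst : ℝ := 3 * 2 ^ B0 + 18 * 2 ^ U' + 16 * 2 ^ K with hCst
  refine ⟨B0 + 1, max (max (3 * X1) X2) (max 9 (Real.exp Cst)), ?_⟩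
  intro X hX A hA D hD hD2 L hL
  have hXX1 : 3 * X1 ≤ X := le_trans (le_trans (le_max_left _ _) (le_max_left _ _)) hX
  have hXX2 : X2 ≤ X := le_trans (le_trans (le_max_right _ _) (le_max_left _ _)) hX
  have hX9 : 9 ≤ X := le_trans (le_trans (le_max_left _ _) (le_max_right _ _)) hX
  have hXe : Real.exp Cst ≤ X := le_trans (le_trans (le_max_right _ _) (le_max_right _ _)) hX
  have hX0 : 0 < X := by linarith
  have hlogX : Cst ≤ Real.log X := by
    rwa [Real.le_log_iff_exp_le hX0]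
  set l := Real.log X with hl
  have hCst3 : (3 : ℝ) * 2 ^ B0 ≤ l := by
    have : (0 : ℝ) ≤ 18 * 2 ^ U' + 16 * 2 ^ K := by positivity
    linarith
  have hCst18 : (18 : ℝ) * 2 ^ U' ≤ l := by
    have : (0 : ℝ) ≤ 3 * 2 ^ B0 + 16 * 2 ^ K := by positivity
    linarith
  have hCst16 : (16 : ℝ) * 2 ^ K ≤ l := by
    have : (0 : ℝ) ≤ 3 * 2 ^ B0 + 18 * 2 ^ U' := by positivity
    linarith
  have hl1 : 1 < l := by
    have : (1 : ℝ) ≤ 2 ^ B0 := one_le_pow₀ (by norm_num)
    linarith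
  have hl0 : 0 < l := by linarith
  set η : ℝ := (l ^ V)⁻¹ with hη
  have hη0 : 0 < η := by positivity
  have hη1 : η ≤ 1 := inv_le_one_of_one_le₀ (one_le_pow₀ hl1.le)
  have hηX : 1 ≤ η * X := by
    have := hX2 X hXX2
    rw [hη, inv_mul_eq_div]
    exact this
  have hA0 : 0 < A := by linarith
  -- the three points
  have three : ∀ Y : ℝ, X / 3 ≤ Y → Y ≤ 3 * X →
      ∑ q ∈ Icc 1 D, ∑ a ∈ L q, |psiLogAP Y q a - psiLog1 Y / (Nat.totient q : ℝ)| ≤
        3 * 2 ^ U' * (A * X / l ^ U') := by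
    intro Y hY1 hY2
    have hY0 : 0 < Y := by linarith
    have hY3 : 3 ≤ Y := by linarith
    have hlogY2 : Real.log Y ≤ 2 * l := by
      have h1 : Real.log Y ≤ Real.log (X * X) := Real.log_le_log hY0 (by nlinarith)
      rw [Real.log_mul hX0.ne' hX0.ne'] at h1
      linarith
    have hlogY1 : l / 2 ≤ Real.log Y := by
      have h1 : Real.log X ≤ Real.log (Y * Y) := Real.log_le_log hX0 (by nlinarith)
      rw [Real.log_mul hY0.ne' hY0.ne'] at h1
      linarith
    have hlogY0 : 0 < Real.log Y := by linarith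
    have hpow : 3 * Real.log Y ^ B0 ≤ l ^ (B0 + 1) := by
      calc 3 * Real.log Y ^ B0 ≤ 3 * (2 * l) ^ B0 := by gcongr
        _ = (3 * 2 ^ B0) * l ^ B0 := by rw [mul_pow]; ring
        _ ≤ l * l ^ B0 := by gcongr
        _ = l ^ (B0 + 1) := by ring
    have hcmp : X / l ^ (B0 + 1) ≤ Y / Real.log Y ^ B0 := by
      rw [div_le_div_iff₀ (by positivity) (by positivity)]
      calc X * Real.log Y ^ B0 ≤ (3 * Y) * Real.log Y ^ B0 := by
            apply mul_le_mul_of_nonneg_right (by linarith) (by positivity)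
        _ = Y * (3 * Real.log Y ^ B0) := by ring
        _ ≤ Y * l ^ (B0 + 1) := by gcongr
    have h1 := hs Y (by linarith) A hA D (hD.trans hcmp)
      (by
        refine hD2.trans ?_
        rw [mul_div_assoc, mul_div_assoc]
        exact mul_le_mul_of_nonneg_left hcmp hA0.le) L hL
    refine h1.trans ?_
    have h2 : l ^ U' ≤ 2 ^ U' * Real.log Y ^ U' := by
      rw [← mul_pow]
      gcongr
      linarith
    rw [div_le_iff₀ (by positivity)]
    have h3 : A * X / l ^ U' * l ^ U' = A * X := by field_simp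
    calc A * Y ≤ A * (3 * X) := by gcongr
      _ = 3 * (A * X / l ^ U' * l ^ U') := by rw [h3]; ring
      _ ≤ 3 * (A * X / l ^ U' * (2 ^ U' * Real.log Y ^ U')) := by gcongr
      _ = 3 * 2 ^ U' * (A * X / l ^ U') * Real.log Y ^ U' := by ring
  have hexp3 : Real.exp η ≤ 3 := by
    calc Real.exp η ≤ Real.exp 1 := Real.exp_le_exp.2 hη1
      _ ≤ 3 := Real.exp_one_lt_three.le
  have hexp1 : 1 ≤ Real.exp η := Real.one_le_exp hη0.le
  have hexpm : 1 / 3 ≤ Real.exp (-η) := by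
    rw [Real.exp_neg, one_div]
    exact inv_anti₀ (Real.exp_pos _) hexp3
  have hexpm1 : Real.exp (-η) ≤ 1 := by
    rw [Real.exp_le_one_iff]; linarith
  have t1 := three (X * Real.exp η) (by nlinarith) (by nlinarith)
  have t2 := three X (by linarith) (by linarith)
  have t3 := three (X * Real.exp (-η)) (by nlinarith) (by nlinarith)
  -- sum of the pointwise inequality
  set c : ℝ := psi1 (X * Real.exp η) - psi1 (X * Real.exp (-η)) with hc
  have hc0 : 0 ≤ c := by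
    rw [hc, psi1_eq, psi1_eq, sub_nonneg]
    apply psiP_mono
    nlinarith
  have hc1 : c ≤ (3 * η * X + 1) * (l + 1) := psi1_short (by linarith) hη0 hη1
  have hsum : ∑ q ∈ Icc 1 D, ∑ a ∈ L q, |psiAP X q a - psi1 X / (Nat.totient q : ℝ)| ≤
      (1 / η) * (3 * (3 * 2 ^ U' * (A * X / l ^ U'))) + A * HH D * c := by
    calc ∑ q ∈ Icc 1 D, ∑ a ∈ L q, |psiAP X q a - psi1 X / (Nat.totient q : ℝ)| ≤
        ∑ q ∈ Icc 1 D, ∑ a ∈ L q, ((1 / η) *
          (|psiLogAP (X * Real.exp η) q a - psiLog1 (X * Real.exp η) / (Nat.totient q : ℝ)| +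
          |psiLogAP X q a - psiLog1 X / (Nat.totient q : ℝ)| +
          |psiLogAP (X * Real.exp (-η)) q a - psiLog1 (X * Real.exp (-η)) / (Nat.totient q : ℝ)|) +
          c / (Nat.totient q : ℝ)) :=
          sum_le_sum fun q _ => sum_le_sum fun a _ => unsmooth_point hX0 hη0 q a
      _ = (1 / η) * (
          ∑ q ∈ Icc 1 D, ∑ a ∈ L q,
            |psiLogAP (X * Real.exp η) q a - psiLog1 (X * Real.exp η) / (Nat.totient q : ℝ)| +
          ∑ q ∈ Icc 1 D, ∑ a ∈ L q, |psiLogAP X q a - psiLog1 X / (Nat.totient q : ℝ)| +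
          ∑ q ∈ Icc 1 D, ∑ a ∈ L q,
            |psiLogAP (X * Real.exp (-η)) q a - psiLog1 (X * Real.exp (-η)) / (Nat.totient q : ℝ)|) +
          ∑ q ∈ Icc 1 D, ∑ _a ∈ L q, c / (Nat.totient q : ℝ) := by
          simp only [sum_add_distrib, mul_sum, mul_add]
      _ ≤ _ := by
          refine add_le_add ?_ (fam_sum_totient hL D hc0)
          apply mul_le_mul_of_nonneg_left _ (by positivity)
          linarith
  refine hsum.trans ?_
  -- first part
  have p1 : (1 / η) * (3 * (3 * 2 ^ U' * (A * X / l ^ U'))) ≤ (A * X / l ^ U) / 2 := by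
    have h1 : l ^ U' = l ^ V * l ^ U * l := by rw [hU']; ring
    have h2 : (1 / η) * (3 * (3 * 2 ^ U' * (A * X / l ^ U'))) = (9 * 2 ^ U' / l) * (A * X / l ^ U) := by
      rw [hη, h1]
      field_simp
      ring
    rw [h2]
    have h3 : 9 * 2 ^ U' / l ≤ 1 / 2 := by
      rw [div_le_div_iff₀ hl0 (by norm_num)]
      linarith
    calc (9 * 2 ^ U' / l) * (A * X / l ^ U) ≤ (1 / 2) * (A * X / l ^ U) := by gcongr
      _ = _ := by ring
  have p2 : A * HH D * c ≤ (A * X / l ^ U) / 2 := by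
    have hHH : HH D ≤ (2 * l) ^ K := by
      have h1 := hk D
      have h2 : HH D = ∑ e ∈ Icc 1 D, (1 : ℝ) ^ e.primeFactors.card / (Nat.totient e : ℝ) := by
        unfold HH; simp
      rw [h2]
      refine h1.trans ?_
      have h3 : Real.log D ≤ l := by
        rcases Nat.eq_zero_or_pos D with h | h
        · rw [h]; simp [hl0.le]
        · refine Real.log_le_log (by exact_mod_cast h) (hD.trans ?_)
          exact div_le_self hX0.le (one_le_pow₀ hl1.le)
      have h4 : 0 ≤ Real.log D := Real.log_natCast_nonneg D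
      gcongr
      linarith
    have hHH0 : 0 ≤ HH D := by
      unfold HH
      exact sum_nonneg fun _ _ => by positivity
    have hc2 : c ≤ 8 * η * X * l := by
      refine hc1.trans ?_
      have h1 : 3 * η * X + 1 ≤ 4 * (η * X) := by linarith
      calc (3 * η * X + 1) * (l + 1) ≤ (4 * (η * X)) * (2 * l) := by
            apply mul_le_mul h1 (by linarith) (by linarith) (by positivity)
        _ = 8 * η * X * l := by ring
    calc A * HH D * c ≤ A * (2 * l) ^ K * (8 * η * X * l) := by gcongr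
      _ = (8 * 2 ^ K / l) * (A * X / l ^ U) := by
          have h1 : l ^ V = l ^ U * l ^ K * l * l := by rw [hV]; ring
          rw [hη, h1, mul_pow]
          field_simp
      _ ≤ (1 / 2) * (A * X / l ^ U) := by
          apply mul_le_mul_of_nonneg_right _ (by positivity)
          rw [div_le_div_iff₀ hl0 (by norm_num)]
          linarith
      _ = _ := by ring
  linarith

end H343E
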