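import Pool.Agent.H45.Lib.S8.H343R2.EH.Defs
import Pool.Agent.H45.Lib.S8.H379R2.SWMain
import Pool.Agent.H45.Lib.S8.H307R2.Sg6

open Finset Filter Topology

namespace H343E

open Pool.Agent.H410R2 Pool.Agent.H398R2.BV Pool.Agent.Helper112

theorem sw : SiegelWalfisz := Pool.Agent.H379R2.SW.siegelWalfisz Pool.Agent.H307R2.siegel

namespace BVL

/-- small conductors -/
theorem small (X : ℝ) (D : ℝ) (G : ℕ) (hD : 0 ≤ D)
    (hSW : ∀ f : ℕ, 2 ≤ f → f ≤ G → ∀ ψ ∈ Prim f, ‖psiLog X f ψ‖ ≤ D) :
    ∑ f ∈ Icc 2 G, (1 / (Nat.totient f : ℝ)) * ∑ ψ ∈ Prim f, ‖psiLog X f ψ‖ ≤ G * D := by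
  calc ∑ f ∈ Icc 2 G, (1 / (Nat.totient f : ℝ)) * ∑ ψ ∈ Prim f, ‖psiLog X f ψ‖
      ≤ ∑ f ∈ Icc 2 G, D := by
        apply sum_le_sum
        intro f hf
        rw [mem_Icc] at hf
        have hφ : (0:ℝ) < Nat.totient f := by exact_mod_cast Nat.totient_pos.mpr (by omega)
        have h1 := card_prim_le (f := f) (by omega)
        calc (1 / (Nat.totient f : ℝ)) * ∑ ψ ∈ Prim f, ‖psiLog X f ψ‖
            ≤ (1 / (Nat.totient f : ℝ)) * ∑ ψ ∈ Prim f, D := by
              apply mul_le_mul_of_nonneg_left _ (by positivity)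
              exact sum_le_sum fun ψ hψ => hSW f hf.1 hf.2 ψ hψ
          _ = ((Prim f).card : ℝ) / (Nat.totient f : ℝ) * D := by
              rw [sum_const, nsmul_eq_mul]; ring
          _ ≤ 1 * D := by
              apply mul_le_mul_of_nonneg_right _ hD
              rw [div_le_one hφ]
              exact h1
          _ = D := one_mul D
    _ = ((Icc 2 G).card : ℝ) * D := by rw [sum_const, nsmul_eq_mul]
    _ ≤ G * D := by
        apply mul_le_mul_of_nonneg_right _ hD
        rw [Nat.card_Icc]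
        exact_mod_cast (by omega : G + 1 - 2 ≤ G)

/-- large conductors -/
theorem large (X : ℝ) (hX : 1 ≤ X) (W G F : ℕ) (hW : 1 ≤ W) (hG : 2 ≤ G) (hF : 1 ≤ F) :
    ∑ f ∈ Icc G F, (1 / (Nat.totient f : ℝ)) * ∑ ψ ∈ Prim f, ‖psiLog X f ψ‖ ≤
      8 * W ^ 2 * F ^ 2 * Real.log X ^ 2 +
      12 * (1 + Real.log F) * (Real.sqrt X / (G : ℝ) +
        (Real.sqrt (X / W) + Real.sqrt (X / W)) + F) * (Real.sqrt X * (1 + Real.log X) ^ 3) *
          Real.log X := by
  have hII := typeII_block X hX W W G F hW hW (by omega) hF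
  have hL : 0 ≤ Real.log X := Real.log_nonneg hX
  have h1 : ∑ f ∈ Icc G F, (1 / (Nat.totient f : ℝ)) * ∑ ψ ∈ Prim f, ‖psiLog X f ψ‖ ≤
      ∑ f ∈ Icc G F, 8 * (W:ℝ) ^ 2 * F * Real.log X ^ 2 +
      ∑ f ∈ Icc G F, (1 / (Nat.totient f : ℝ)) *
        ∑ ψ ∈ Prim f, ‖TL X f ψ (LamII W W)‖ := by
    rw [← sum_add_distrib]
    apply sum_le_sum
    intro f hf
    rw [mem_Icc] at hf
    have hφ : (0:ℝ) < Nat.totient f := by exact_mod_cast Nat.totient_pos.mpr (by omega)
    have hc := card_prim_le (f := f) (by omega)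
    have hfF : (f:ℝ) ≤ F := by exact_mod_cast hf.2
    calc (1 / (Nat.totient f : ℝ)) * ∑ ψ ∈ Prim f, ‖psiLog X f ψ‖
        ≤ (1 / (Nat.totient f : ℝ)) * ∑ ψ ∈ Prim f,
          (8 * W * W * f * Real.log X ^ 2 + ‖TL X f ψ (LamII W W)‖) := by
          apply mul_le_mul_of_nonneg_left _ (by positivity)
          apply sum_le_sum
          intro ψ hψ
          exact norm_psiLog_le X hX W W f hW hW (by omega) ψ (prim_ne_one (by omega) hψ)
      _ = ((Prim f).card : ℝ) / (Nat.totient f : ℝ) * (8 * W * W * f * Real.log X ^ 2) +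
          (1 / (Nat.totient f : ℝ)) * ∑ ψ ∈ Prim f, ‖TL X f ψ (LamII W W)‖ := by
          rw [sum_add_distrib, sum_const, nsmul_eq_mul]; ring
      _ ≤ 8 * (W:ℝ) ^ 2 * F * Real.log X ^ 2 +
          (1 / (Nat.totient f : ℝ)) * ∑ ψ ∈ Prim f, ‖TL X f ψ (LamII W W)‖ := by
          apply add_le_add_left
          calc ((Prim f).card : ℝ) / (Nat.totient f : ℝ) * (8 * W * W * f * Real.log X ^ 2)
              ≤ 1 * (8 * W * W * F * Real.log X ^ 2) := by
                apply mul_le_mul _ _ (by positivity) (by norm_num)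
                · rw [div_le_one hφ]; exact hc
                · gcongr
            _ = _ := by ring
  refine h1.trans (add_le_add ?_ hII)
  rw [sum_const, nsmul_eq_mul, Nat.card_Icc]
  have h2 : ((F + 1 - G : ℕ) : ℝ) ≤ F := by exact_mod_cast (by omega : F + 1 - G ≤ F)
  calc ((F + 1 - G : ℕ) : ℝ) * (8 * (W:ℝ) ^ 2 * F * Real.log X ^ 2) ≤
      F * (8 * (W:ℝ) ^ 2 * F * Real.log X ^ 2) := by gcongr
    _ = _ := by ring

end BVL

open BVL in
theorem bv_log (U : ℕ) : ∃ (B : ℕ) (X0 : ℝ), ∀ X : ℝ, X0 ≤ X → ∀ F : ℕ,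
    (F : ℝ) ≤ Real.sqrt X / Real.log X ^ B →
    ∑ f ∈ Icc 2 F, (1 / (Nat.totient f : ℝ)) * ∑ ψ ∈ Prim f, ‖psiLog X f ψ‖ ≤
      X / Real.log X ^ U := by
  set V := U + 8 with hV
  set B := 2 * V + U + 4 with hB
  obtain ⟨x₀, hx₀⟩ := sw (U + V + 1) V
  have hlog : Tendsto Real.log atTop atTop := Real.tendsto_log_atTop
  have ev : ∀ᶠ X : ℝ in atTop, ∀ F : ℕ, (F : ℝ) ≤ Real.sqrt X / Real.log X ^ B →
      ∑ f ∈ Icc 2 F, (1 / (Nat.totient f : ℝ)) * ∑ ψ ∈ Prim f, ‖psiLog X f ψ‖ ≤
      X / Real.log X ^ U := by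
    filter_upwards [eventually_ge_atTop x₀, eventually_ge_atTop (4:ℝ),
      hlog.eventually_ge_atTop 10000] with X h1 h2 h3 F hF
    have hX0 : 0 < X := by linarith
    have hX1 : 1 ≤ X := by linarith
    set L := Real.log X with hL
    have hL0 : 0 < L := by linarith
    have hL1 : 1 ≤ L := by linarith
    have hsX : 0 < Real.sqrt X := Real.sqrt_pos.mpr hX0
    have hss : Real.sqrt X * Real.sqrt X = X := Real.mul_self_sqrt hX0.le
    have hXU : 0 < X / L ^ U := by positivity
    set G := ⌊L ^ V⌋₊ with hG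
    have hGle : (G : ℝ) ≤ L ^ V := Nat.floor_le (by positivity)
    have hsmall : ∑ f ∈ Icc 2 G, (1 / (Nat.totient f : ℝ)) * ∑ ψ ∈ Prim f, ‖psiLog X f ψ‖ ≤
        (1 / 2) * (X / L ^ U) := by
      refine (small X (X / L ^ (U + V + 1)) G (by positivity) ?_).trans ?_
      · intro f hf2 hfG ψ hψ
        apply hx₀ X h1 f (by omega)
        · calc (f:ℝ) ≤ G := by exact_mod_cast hfG
            _ ≤ L ^ V := hGle
        · classical
          unfold Prim at hψ
          rw [mem_filter] at hψ
          exact hψ.2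
      · calc (G:ℝ) * (X / L ^ (U + V + 1)) ≤ L ^ V * (X / L ^ (U + V + 1)) := by gcongr
          _ = (1 / L) * (X / L ^ U) := by
              have : L ^ (U + V + 1) = L ^ U * L ^ V * L := by
                rw [pow_add, pow_add, pow_one]
              rw [this]
              have hLV0 : L ^ V ≠ 0 := by positivity
              generalize L ^ V = P at *
              field_simp
          _ ≤ (1 / 2) * (X / L ^ U) := by
              apply mul_le_mul_of_nonneg_right _ hXU.le
              apply one_div_le_one_div_of_le (by norm_num)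
              linarith
    rcases Nat.eq_zero_or_pos F with hF0 | hF0
    · subst hF0
      rw [Icc_eq_empty (by norm_num), sum_empty]
      exact hXU.le
    -- large part
    set W := ⌈L ^ (2 * V)⌉₊ with hW
    have hLV : 1 ≤ L ^ (2 * V) := one_le_pow₀ hL1
    have hW1 : L ^ (2 * V) ≤ W := Nat.le_ceil _
    have hW2 : (W : ℝ) ≤ 2 * L ^ (2 * V) := by
      have := Nat.ceil_lt_add_one (show 0 ≤ L ^ (2 * V) by positivity)
      linarith
    have hW3 : 1 ≤ W := by
      have : (1:ℝ) ≤ W := hLV.trans hW1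
      exact_mod_cast this
    have hG1 : 1 ≤ G := by
      rw [hG, Nat.one_le_floor_iff]
      exact one_le_pow₀ hL1
    have hlarge := large X hX1 W (G + 1) F hW3 (by omega) hF0
    have hlarge2 : 8 * (W:ℝ) ^ 2 * F ^ 2 * L ^ 2 +
      12 * (1 + Real.log F) * (Real.sqrt X / ((G + 1 : ℕ) : ℝ) +
        (Real.sqrt (X / W) + Real.sqrt (X / W)) + F) * (Real.sqrt X * (1 + L) ^ 3) * L ≤
        (1 / 2) * (X / L ^ U) := by
      have hI : 8 * (W:ℝ) ^ 2 * F ^ 2 * L ^ 2 ≤ (1 / 4) * (X / L ^ U) := by
        calc 8 * (W:ℝ) ^ 2 * F ^ 2 * L ^ 2 ≤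
            8 * (2 * L ^ (2 * V)) ^ 2 * (Real.sqrt X / L ^ B) ^ 2 * L ^ 2 := by gcongr
          _ = 32 * (X / L ^ U) * (L ^ (4 * V + 2 + U) / L ^ (2 * B)) := by
              rw [div_pow, pow_two (Real.sqrt X), hss]
              field_simp
              ring
          _ ≤ 32 * (X / L ^ U) * (1 / L) := by
              apply mul_le_mul_of_nonneg_left _ (by positivity)
              rw [div_le_div_iff₀ (by positivity) hL0, one_mul, ← pow_succ]
              apply pow_le_pow_right₀ hL1
              omega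
          _ ≤ 32 * (X / L ^ U) * (1 / 10000) := by gcongr
          _ ≤ _ := by linarith
      have hlogF : Real.log F ≤ L := by
        apply log_natCast_le _ X hX1
        calc (F:ℝ) ≤ Real.sqrt X / L ^ B := hF
          _ ≤ Real.sqrt X / 1 := by
              gcongr
              exact one_le_pow₀ hL1
          _ ≤ X := by
              rw [div_one]
              calc Real.sqrt X = Real.sqrt X * 1 := (mul_one _).symm
                _ ≤ Real.sqrt X * Real.sqrt X := by
                    gcongr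
                    exact Real.one_le_sqrt.mpr hX1
                _ = X := hss
      have hG2 : Real.sqrt X / ((G + 1 : ℕ) : ℝ) ≤ Real.sqrt X / L ^ V := by
        apply div_le_div_of_nonneg_left hsX.le (by positivity)
        have := Nat.lt_floor_add_one (L ^ V)
        rw [← hG] at this
        push_cast
        linarith
      have hW4 : Real.sqrt (X / W) ≤ Real.sqrt X / L ^ V := by
        rw [Real.sqrt_div hX0.le]
        apply div_le_div_of_nonneg_left hsX.le (by positivity)
        apply Real.le_sqrt_of_sq_le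
        rw [← pow_mul, mul_comm V 2]
        exact hW1
      have hF4 : (F : ℝ) ≤ Real.sqrt X / L ^ V := by
        refine hF.trans ?_
        apply div_le_div_of_nonneg_left hsX.le (by positivity)
        apply pow_le_pow_right₀ hL1
        omega
      have hII : 12 * (1 + Real.log F) * (Real.sqrt X / ((G + 1 : ℕ) : ℝ) +
        (Real.sqrt (X / W) + Real.sqrt (X / W)) + F) * (Real.sqrt X * (1 + L) ^ 3) * L ≤
        (1 / 4) * (X / L ^ U) := by
        calc 12 * (1 + Real.log F) * (Real.sqrt X / ((G + 1 : ℕ) : ℝ) +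
            (Real.sqrt (X / W) + Real.sqrt (X / W)) + F) * (Real.sqrt X * (1 + L) ^ 3) * L ≤
            12 * (2 * L) * (4 * (Real.sqrt X / L ^ V)) * (Real.sqrt X * (2 * L) ^ 3) * L := by
              have hF0' : (0:ℝ) ≤ Real.log F := Real.log_natCast_nonneg F
              gcongr
              · linarith
              · linarith
              · linarith
          _ = 768 * (Real.sqrt X * Real.sqrt X) * (L ^ 5 / L ^ V) := by
              field_simp
              ring
          _ = 768 * (X / L ^ U) * (L ^ (5 + U) / L ^ V) := by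
              rw [hss]
              have hLV0 : L ^ V ≠ 0 := by positivity
              generalize L ^ V = P at *
              rw [pow_add L 5 U]
              field_simp
          _ ≤ 768 * (X / L ^ U) * (1 / L) := by
              apply mul_le_mul_of_nonneg_left _ (by positivity)
              rw [div_le_div_iff₀ (by positivity) hL0, one_mul, ← pow_succ]
              apply pow_le_pow_right₀ hL1
              omega
          _ ≤ 768 * (X / L ^ U) * (1 / 10000) := by gcongr
          _ ≤ _ := by linarith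
      linarith
    have hnn : ∀ f : ℕ, 0 ≤ (1 / (Nat.totient f : ℝ)) * ∑ ψ ∈ Prim f, ‖psiLog X f ψ‖ := fun f =>
      mul_nonneg (by positivity) (sum_nonneg fun _ _ => norm_nonneg _)
    have hsplit : ∑ f ∈ Icc 2 F, (1 / (Nat.totient f : ℝ)) * ∑ ψ ∈ Prim f, ‖psiLog X f ψ‖ ≤
        ∑ f ∈ Icc 2 G, (1 / (Nat.totient f : ℝ)) * ∑ ψ ∈ Prim f, ‖psiLog X f ψ‖ +
        ∑ f ∈ Icc (G + 1) F, (1 / (Nat.totient f : ℝ)) * ∑ ψ ∈ Prim f, ‖psiLog X f ψ‖ := by
      rw [← sum_filter_add_sum_filter_not (Icc 2 F) (fun f => f ≤ G)]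
      apply add_le_add
      · apply sum_le_sum_of_subset_of_nonneg
        · intro f hf
          rw [mem_filter, mem_Icc] at hf
          rw [mem_Icc]
          exact ⟨hf.1.1, hf.2⟩
        · intro f _ _
          exact hnn f
      · apply sum_le_sum_of_subset_of_nonneg
        · intro f hf
          rw [mem_filter, mem_Icc] at hf
          rw [mem_Icc]
          omega
        · intro f _ _
          exact hnn f
    linarith
  rw [eventually_atTop] at ev
  obtain ⟨X0, hX0⟩ := ev
  exact ⟨B, X0, hX0⟩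

end H343E
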