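import Pool.Agent.H45.Lib.S8.H343R2.EH.Defs

open Finset

namespace H343E

namespace Par

variable {q : ℕ} [NeZero q]

theorem orth (χ ψ : DirichletCharacter ℂ q) :
    ∑ a ∈ (range q).filter (fun a => a.Coprime q),
      χ ((a : ZMod q)⁻¹) * (starRingEnd ℂ) (ψ ((a : ZMod q)⁻¹)) =
      if χ = ψ then (Nat.totient q : ℂ) else 0 := by
  classical
  -- pass to units
  have h1 : ∑ a ∈ (range q).filter (fun a => a.Coprime q),
      χ ((a : ZMod q)⁻¹) * (starRingEnd ℂ) (ψ ((a : ZMod q)⁻¹)) =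
      ∑ u : (ZMod q)ˣ, χ (((u : ZMod q))⁻¹) * (starRingEnd ℂ) (ψ ((u : ZMod q)⁻¹)) := by
    symm
    apply sum_bij (fun (a : (ZMod q)ˣ) _ => (a : ZMod q).val)
    · intro a _
      rw [mem_filter, mem_range]
      exact ⟨ZMod.val_lt _, ZMod.val_coe_unit_coprime a⟩
    · intro a _ b _ hab
      exact Units.ext (ZMod.val_injective q hab)
    · intro b hb
      rw [mem_filter, mem_range] at hb
      refine ⟨ZMod.unitOfCoprime b hb.2, mem_univ _, ?_⟩
      rw [ZMod.coe_unitOfCoprime, ZMod.val_natCast, Nat.mod_eq_of_lt hb.1]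
    · intro a _
      rw [ZMod.natCast_zmod_val]
  rw [h1]
  have h2 : ∑ u : (ZMod q)ˣ, χ (((u : ZMod q))⁻¹) * (starRingEnd ℂ) (ψ ((u : ZMod q)⁻¹)) =
      ∑ u : (ZMod q)ˣ, (χ * ψ⁻¹) (u : ZMod q) := by
    apply sum_bij (fun (a : (ZMod q)ˣ) _ => a⁻¹)
    · intro a _; exact mem_univ _
    · intro a _ b _ hab; exact inv_injective hab
    · intro b _; exact ⟨b⁻¹, mem_univ _, inv_inv b⟩
    · intro a _
      have e : ((a : ZMod q))⁻¹ = ((a⁻¹ : (ZMod q)ˣ) : ZMod q) := by
        exact ZMod.inv_coe_unit a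
      rw [e, MulChar.mul_apply]
      congr 1
      rw [MulChar.inv_apply_eq_inv']
      have hn : ‖ψ ((a⁻¹ : (ZMod q)ˣ) : ZMod q)‖ = 1 := DirichletCharacter.unit_norm_eq_one ψ _
      exact (Complex.inv_eq_conj hn).symm
  rw [h2]
  have h3 : ∑ u : (ZMod q)ˣ, (χ * ψ⁻¹) (u : ZMod q) = ∑ a : ZMod q, (χ * ψ⁻¹) a := by
    have h4 : ∑ a : ZMod q, (χ * ψ⁻¹) a = ∑ a ∈ univ.filter (fun a : ZMod q => IsUnit a),
        (χ * ψ⁻¹) a := by
      symm
      apply sum_subset (filter_subset _ _)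
      intro a _ ha
      rw [mem_filter] at ha
      push Not at ha
      exact MulChar.map_nonunit _ (ha (mem_univ _))
    rw [h4]
    apply sum_bij (fun (a : (ZMod q)ˣ) _ => (a : ZMod q))
    · intro a _
      rw [mem_filter]
      exact ⟨mem_univ _, a.isUnit⟩
    · intro a _ b _ hab
      exact Units.ext hab
    · intro b hb
      rw [mem_filter] at hb
      exact ⟨hb.2.unit, mem_univ _, rfl⟩
    · intro a _; rfl
  split_ifs with h
  · subst h
    have h5 : ∑ u : (ZMod q)ˣ, (χ * χ⁻¹) (u : ZMod q) = ∑ u : (ZMod q)ˣ, (1 : ℂ) := by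
      apply sum_congr rfl
      intro u _
      rw [mul_inv_cancel, MulChar.one_apply_coe]
    rw [h5, sum_const, nsmul_eq_mul, mul_one, card_univ, ZMod.card_units_eq_totient]
  · rw [h3]
    apply MulChar.sum_eq_zero_of_ne_one
    intro h6
    apply h
    rw [mul_inv_eq_one] at h6
    exact h6

end Par

open Par in
theorem parseval (q : ℕ) [NeZero q] (S : Finset (DirichletCharacter ℂ q))
    (c : DirichletCharacter ℂ q → ℂ) :
    ∑ a ∈ (range q).filter (fun a => a.Coprime q), ‖∑ χ ∈ S, χ ((a : ZMod q)⁻¹) * c χ‖ ^ 2 =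
      Nat.totient q * ∑ χ ∈ S, ‖c χ‖ ^ 2 := by
  classical
  have h : ((∑ a ∈ (range q).filter (fun a => a.Coprime q),
      ‖∑ χ ∈ S, χ ((a : ZMod q)⁻¹) * c χ‖ ^ 2 : ℝ) : ℂ) =
      ((Nat.totient q * ∑ χ ∈ S, ‖c χ‖ ^ 2 : ℝ) : ℂ) := by
    push_cast
    calc ∑ a ∈ (range q).filter (fun a => a.Coprime q),
          ((‖∑ χ ∈ S, χ ((a : ZMod q)⁻¹) * c χ‖ : ℝ) : ℂ) ^ 2
        = ∑ a ∈ (range q).filter (fun a => a.Coprime q), ∑ χ ∈ S, ∑ ψ ∈ S,
          (c χ * (starRingEnd ℂ) (c ψ)) *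
            (χ ((a : ZMod q)⁻¹) * (starRingEnd ℂ) (ψ ((a : ZMod q)⁻¹))) := by
          apply sum_congr rfl
          intro a _
          rw [← Complex.mul_conj', map_sum, sum_mul_sum]
          apply sum_congr rfl
          intro χ _
          apply sum_congr rfl
          intro ψ _
          rw [map_mul]
          ring
      _ = ∑ χ ∈ S, ∑ ψ ∈ S, (c χ * (starRingEnd ℂ) (c ψ)) *
          (if χ = ψ then (Nat.totient q : ℂ) else 0) := by
          rw [sum_comm]
          apply sum_congr rfl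
          intro χ _
          rw [sum_comm]
          apply sum_congr rfl
          intro ψ _
          rw [← mul_sum, orth]
      _ = ∑ χ ∈ S, (c χ * (starRingEnd ℂ) (c χ)) * (Nat.totient q : ℂ) := by
          apply sum_congr rfl
          intro χ hχ
          rw [sum_eq_single χ]
          · rw [if_pos rfl]
          · intro ψ _ hne
            rw [if_neg (fun h => hne h.symm), mul_zero]
          · intro h; exact absurd hχ h
      _ = _ := by
          rw [mul_sum]
          apply sum_congr rfl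
          intro χ _
          rw [Complex.mul_conj']
          ring
  exact_mod_cast h

end H343E
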